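import Pool.Graph.R_seed8.R566.WPL.Opt

/-!
# A pair of siblings below a long path is never moved by the WPL tree algorithm

The tree `deep k lo` is a right path with the keys `lo, …, lo + k - 1` below which the key
`lo + k + 1` has the two children `lo + k` and `lo + k + 2`.  If the counter of `lo + k + 1` is
large, then accesses to the two children never cause a rotation, as long as the difference of
their counters stays small.
-/

set_option autoImplicit false

namespace Pool.Agent.KS6_40.WP

open Pool.Agent.R566.WPL Pool.Agent.R566.WPL.BST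

/-- The deep tree. -/
def deep : ℕ → ℕ → BST
  | 0, lo => node (node leaf lo leaf) (lo + 1) (node leaf (lo + 2) leaf)
  | k + 1, lo => node leaf lo (deep k (lo + 1))

/-- An order of the keys in which parents come before their children. -/
def ordD : ℕ → ℕ → List ℕ
  | 0, lo => [lo + 1, lo, lo + 2]
  | k + 1, lo => lo :: ordD k (lo + 1)

lemma mem_ordD (k : ℕ) : ∀ (lo x : ℕ), x ∈ ordD k lo ↔ lo ≤ x ∧ x < lo + (k + 3) := by
  induction k with
  | zero => intro lo x; simp only [ordD, List.mem_cons, List.not_mem_nil, or_false]; omega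
  | succ k ih => intro lo x; simp only [ordD, List.mem_cons, ih]; omega

lemma nodup_ordD (k : ℕ) : ∀ lo : ℕ, (ordD k lo).Nodup := by
  induction k with
  | zero =>
    intro lo
    simp only [ordD, List.nodup_cons, List.mem_cons, List.not_mem_nil, or_false, not_false_eq_true,
      List.nodup_nil, and_true]
    omega
  | succ k ih =>
    intro lo
    simp only [ordD, List.nodup_cons, mem_ordD]
    exact ⟨by omega, ih _⟩

lemma inorder_deep (k : ℕ) : ∀ lo : ℕ, (deep k lo).inorder = List.range' lo (k + 3) := by
  induction k with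
  | zero => intro lo; simp [deep, inorder, List.range']
  | succ k ih =>
    intro lo
    rw [show k + 1 + 3 = (k + 3) + 1 by ring, List.range'_succ]
    simp [deep, inorder, ih]

lemma on_deep (k : ℕ) : On (k + 3) (deep k 1) := inorder_deep k 1

lemma srt_deep (k lo : ℕ) : Srt (deep k lo) := by
  unfold Srt
  rw [inorder_deep]
  exact List.pairwise_lt_range' (s := lo) (n := k + 3) (step := 1) (by norm_num)

lemma depth_left (k : ℕ) : ∀ lo : ℕ, depth (lo + k) (deep k lo) = k + 1 := by
  induction k with
  | zero => intro lo; simp [deep, depth]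
  | succ k ih =>
    intro lo
    have h := ih (lo + 1)
    rw [show lo + 1 + k = lo + (k + 1) by ring] at h
    have h1 : ¬ lo + (k + 1) < lo := by omega
    have h2 : lo < lo + (k + 1) := by omega
    simp only [deep, depth, h1, h2, if_true, if_false, h]

lemma depth_right (k : ℕ) : ∀ lo : ℕ, depth (lo + k + 2) (deep k lo) = k + 1 := by
  induction k with
  | zero => intro lo; simp [deep, depth]
  | succ k ih =>
    intro lo
    have h := ih (lo + 1)
    rw [show lo + 1 + k + 2 = lo + (k + 1) + 2 by ring] at h
    have h1 : ¬ lo + (k + 1) + 2 < lo := by omega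
    have h2 : lo < lo + (k + 1) + 2 := by omega
    simp only [deep, depth, h1, h2, if_true, if_false, h]

lemma not_rootIs_deep {k lo x : ℕ} (h : x = lo + k ∨ x = lo + k + 2) : ¬ rootIs x (deep k lo) := by
  cases k with
  | zero => simp only [deep, rootIs]; omega
  | succ k => simp only [deep, rootIs]; omega

lemma wpl_left (f : ℕ → ℕ) (k : ℕ) : ∀ (lo : ℕ), f (lo + k) ≤ f (lo + k + 1) + f (lo + k + 2) →
    ∀ d : ℕ, wplFrom f d (deep k lo) ≤ wplFrom f d (rotUp (lo + k) (deep k lo)) := by
  induction k with
  | zero =>
    intro lo h d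
    simp only [Nat.add_zero] at h
    have h1 : lo < lo + 1 := by omega
    simp only [deep, rotUp, rootIs, rotateRight, wplFrom, Nat.add_zero, h1, if_true]
    nlinarith
  | succ k ih =>
    intro lo h d
    have h' := ih (lo + 1) (by
      rw [show lo + 1 + k = lo + (k + 1) by ring]
      exact h) (d + 1)
    rw [show lo + 1 + k = lo + (k + 1) by ring] at h'
    have h1 : ¬ lo + (k + 1) < lo := by omega
    have h2 : lo < lo + (k + 1) := by omega
    have h3 : ¬ rootIs (lo + (k + 1)) (deep k (lo + 1)) := not_rootIs_deep (Or.inl (by omega))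
    simp only [deep, rotUp, h1, h2, h3, if_true, if_false, wplFrom]
    omega

lemma wpl_right (f : ℕ → ℕ) (k : ℕ) : ∀ (lo : ℕ), f (lo + k + 2) ≤ f (lo + k + 1) + f (lo + k) →
    ∀ d : ℕ, wplFrom f d (deep k lo) ≤ wplFrom f d (rotUp (lo + k + 2) (deep k lo)) := by
  induction k with
  | zero =>
    intro lo h d
    simp only [Nat.add_zero] at h
    have h1 : ¬ lo + 2 < lo + 1 := by omega
    have h2 : lo + 1 < lo + 2 := by omega
    simp only [deep, rotUp, rootIs, rotateLeft, wplFrom, Nat.add_zero, h1, h2, if_true, if_false]
    nlinarith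
  | succ k ih =>
    intro lo h d
    have h' := ih (lo + 1) (by
      rw [show lo + 1 + k = lo + (k + 1) by ring]
      exact h) (d + 1)
    rw [show lo + 1 + k = lo + (k + 1) by ring] at h'
    have h1 : ¬ lo + (k + 1) + 2 < lo := by omega
    have h2 : lo < lo + (k + 1) + 2 := by omega
    have h3 : ¬ rootIs (lo + (k + 1) + 2) (deep k (lo + 1)) :=
      not_rootIs_deep (Or.inr (by omega))
    simp only [deep, rotUp, h1, h2, h3, if_true, if_false, wplFrom]
    omega

lemma climb_left {f : ℕ → ℕ} {k lo : ℕ} (h : f (lo + k) ≤ f (lo + k + 1) + f (lo + k + 2)) (m : ℕ) :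
    climb f (lo + k) m (deep k lo) = (deep k lo, 0) := by
  cases m with
  | zero => rfl
  | succ m =>
    have h1 : ¬ wpl f (rotUp (lo + k) (deep k lo)) < wpl f (deep k lo) := by
      rw [wpl_eq f (srt_rotUp (srt_deep k lo)), wpl_eq f (srt_deep k lo), not_lt]
      exact wpl_left f k lo h 0
    simp only [climb, h1, if_false]

lemma climb_right {f : ℕ → ℕ} {k lo : ℕ} (h : f (lo + k + 2) ≤ f (lo + k + 1) + f (lo + k))
    (m : ℕ) : climb f (lo + k + 2) m (deep k lo) = (deep k lo, 0) := by
  cases m with
  | zero => rfl
  | succ m =>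
    have h1 : ¬ wpl f (rotUp (lo + k + 2) (deep k lo)) < wpl f (deep k lo) := by
      rw [wpl_eq f (srt_rotUp (srt_deep k lo)), wpl_eq f (srt_deep k lo), not_lt]
      exact wpl_right f k lo h 0
    simp only [climb, h1, if_false]

/-! ### Blocks of accesses -/

/-- The counters after `i` further accesses to `x`. -/
def plus (f : ℕ → ℕ) (x i : ℕ) : ℕ → ℕ := Function.update f x (f x + i)

lemma plus_zero (f : ℕ → ℕ) (x : ℕ) : plus f x 0 = f := by
  unfold plus
  simp

lemma plus_one (f : ℕ → ℕ) (x i : ℕ) : plus (Function.update f x (f x + 1)) x i = plus f x (i + 1) := by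
  funext v
  unfold plus
  by_cases hv : v = x
  · subst hv
    simp
    ring
  · simp [Function.update_of_ne hv]

lemma block_right {k lo : ℕ} (τ : List ℕ) : ∀ (j : ℕ) (f : ℕ → ℕ),
    f (lo + k + 2) + j ≤ f (lo + k + 1) + f (lo + k) →
    wplCostFrom f (deep k lo) (List.replicate j (lo + k + 2) ++ τ) =
      j * (k + 2) + wplCostFrom (plus f (lo + k + 2) j) (deep k lo) τ := by
  intro j
  induction j with
  | zero => intro f _; simp [plus_zero]
  | succ j ih =>
    intro f hf
    have n1 : lo + k + 1 ≠ lo + k + 2 := by omega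
    have n2 : lo + k ≠ lo + k + 2 := by omega
    have hc := climb_right (f := Function.update f (lo + k + 2) (f (lo + k + 2) + 1)) (k := k)
      (lo := lo) (by
        rw [Function.update_self, Function.update_of_ne n1, Function.update_of_ne n2]
        omega) (depth (lo + k + 2) (deep k lo))
    simp only [List.replicate_succ, List.cons_append, wplCostFrom]
    rw [hc, depth_right, ih _ (by
      rw [Function.update_self, Function.update_of_ne n1, Function.update_of_ne n2]
      omega), plus_one]
    ring

lemma block_left {k lo : ℕ} (τ : List ℕ) : ∀ (j : ℕ) (f : ℕ → ℕ),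
    f (lo + k) + j ≤ f (lo + k + 1) + f (lo + k + 2) →
    wplCostFrom f (deep k lo) (List.replicate j (lo + k) ++ τ) =
      j * (k + 2) + wplCostFrom (plus f (lo + k) j) (deep k lo) τ := by
  intro j
  induction j with
  | zero => intro f _; simp [plus_zero]
  | succ j ih =>
    intro f hf
    have n1 : lo + k + 1 ≠ lo + k := by omega
    have n2 : lo + k + 2 ≠ lo + k := by omega
    have hc := climb_left (f := Function.update f (lo + k) (f (lo + k) + 1)) (k := k)
      (lo := lo) (by
        rw [Function.update_self, Function.update_of_ne n1, Function.update_of_ne n2]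
        omega) (depth (lo + k) (deep k lo))
    simp only [List.replicate_succ, List.cons_append, wplCostFrom]
    rw [hc, depth_left, ih _ (by
      rw [Function.update_self, Function.update_of_ne n1, Function.update_of_ne n2]
      omega), plus_one]
    ring

/-- `m` rounds: `K` accesses to the right child, then `K` accesses to the left child. -/
def blocks (k K : ℕ) : ℕ → List ℕ
  | 0 => []
  | m + 1 => List.replicate K (1 + k + 2) ++ (List.replicate K (1 + k) ++ blocks k K m)

lemma mem_blocks {k K m x : ℕ} (h : x ∈ blocks k K m) : 1 ≤ x ∧ x ≤ k + 3 := by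
  induction m with
  | zero => simp [blocks] at h
  | succ m ih =>
    simp only [blocks, List.mem_append, List.mem_replicate] at h
    rcases h with h | h | h
    · omega
    · omega
    · exact ih h

lemma cost_blocks (k K m : ℕ) : ∀ f : ℕ → ℕ,
    f (1 + k + 2) ≤ f (1 + k) → K ≤ f (1 + k + 1) → f (1 + k) ≤ f (1 + k + 1) + f (1 + k + 2) →
    wplCostFrom f (deep k 1) (blocks k K m) = m * (2 * K * (k + 2)) := by
  induction m with
  | zero => intro f _ _ _; simp [blocks, wplCostFrom]
  | succ m ih =>
    intro f h1 h0 h2
    have n1 : 1 + k + 1 ≠ 1 + k + 2 := by omega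
    have n2 : 1 + k ≠ 1 + k + 2 := by omega
    have n3 : 1 + k + 1 ≠ 1 + k := by omega
    simp only [blocks]
    rw [block_right _ K f (by omega), block_left _ K _ (by
      simp only [plus, Function.update_self, Function.update_of_ne n1, Function.update_of_ne n2]
      omega), ih _ (by
      simp only [plus, Function.update_self, Function.update_of_ne n2, Function.update_of_ne n2.symm]
      omega) (by
      simp only [plus, Function.update_of_ne n1, Function.update_of_ne n3]
      omega) (by
      simp only [plus, Function.update_self, Function.update_of_ne n1, Function.update_of_ne n2,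
        Function.update_of_ne n2.symm, Function.update_of_ne n3]
      omega)]
    ring

/-! ### The deep tree can be forced -/

lemma gtT_gtT {a b : ℕ} (hab : a ≤ b) (T : BST) : gtT b (gtT a T) = gtT b T := by
  induction T with
  | leaf => rfl
  | node l k r ihl ihr =>
    by_cases h1 : k ≤ a
    · have h2 : k ≤ b := h1.trans hab
      simp only [gtT, h1, h2, if_true, ihr]
    · by_cases h2 : k ≤ b
      · simp only [gtT, h1, h2, if_true, if_false]
      · simp only [gtT, h1, h2, if_false, ihl]

lemma restrict_foldrD (T : BST) (k : ℕ) : ∀ lo : ℕ,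
    ltT (lo + 1 + (k + 3)) (gtT lo ((ordD k (lo + 1)).foldr mtr T)) = deep k (lo + 1) := by
  induction k with
  | zero =>
    intro lo
    simp only [ordD, List.foldr_cons, List.foldr_nil, deep]
    rw [restrict_mtr (by omega) (by omega), restrict_mtr (by omega) (by omega),
      ltT_gtT_leaf (by omega), ltT_gtT_leaf (by omega)]
    have h1 : gtT (lo + 1 + 1) (mtr (lo + 1) (mtr (lo + 1 + 2) T)) =
        gtT (lo + 1 + 1) (mtr (lo + 1 + 2) T) := by
      have h2 : lo + 1 ≤ lo + 1 + 1 := by omega
      conv_lhs => rw [mtr]
      simp only [gtT, h2, if_true]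
      exact gtT_gtT (by omega) _
    rw [h1, restrict_mtr (by omega) (by omega), ltT_gtT_leaf (by omega), ltT_gtT_leaf (by omega)]
  | succ k ih =>
    intro lo
    simp only [ordD, List.foldr_cons, deep]
    rw [restrict_mtr (by omega) (by omega), ltT_gtT_leaf (by omega)]
    have h := ih (lo + 1)
    rw [show lo + 1 + (k + 1 + 3) = lo + 1 + 1 + (k + 3) by ring, h]

/-- Forcing a tree, with large gaps between the counters. -/
lemma forceK (K : ℕ) {T₀ : BST} (hT₀ : Srt T₀) : ∀ o : List ℕ, o.Nodup →
    (∀ x ∈ o, x ∈ T₀.inorder) →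
    ∃ π : List ℕ, (∀ x ∈ π, x ∈ o) ∧ (run (fun _ => 0) T₀ π).2 = o.foldr mtr T₀ ∧
      o.Pairwise (fun a c => (run (fun _ => 0) T₀ π).1 c + K ≤ (run (fun _ => 0) T₀ π).1 a) := by
  intro o
  induction o with
  | nil => intro _ _; exact ⟨[], by simp, rfl, List.Pairwise.nil⟩
  | cons x o ih =>
    intro hn hm
    rw [List.nodup_cons] at hn
    obtain ⟨π, h1, h2, h3⟩ := ih hn.2 fun y hy => hm y (List.mem_cons_of_mem _ hy)
    have hi : (run (fun _ => 0) T₀ π).2.inorder = T₀.inorder := inorder_run _ _ _
    have hS : Srt (run (fun _ => 0) T₀ π).2 := by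
      unfold Srt
      rw [hi]
      exact hT₀
    set f := (run (fun _ => 0) T₀ π).1 with hf
    set T := (run (fun _ => 0) T₀ π).2 with hT
    have hr := run_many f (x := x) (K := wt f T + 1 + K) hS
      (by rw [hi]; exact hm x List.mem_cons_self) (by omega)
    refine ⟨π ++ List.replicate (wt f T + 1 + K) x, ?_, ?_, ?_⟩
    · intro y hy
      rw [List.mem_append, List.mem_replicate] at hy
      rcases hy with hy | hy
      · exact List.mem_cons_of_mem _ (h1 y hy)
      · rw [hy.2]
        exact List.mem_cons_self
    · rw [run_append, ← hf, ← hT, hr, h2]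
      rfl
    · rw [run_append, ← hf, ← hT, hr]
      rw [List.pairwise_cons]
      constructor
      · intro y hy
        have hyx : y ≠ x := fun h => hn.1 (h ▸ hy)
        simp only [Function.update_of_ne hyx, Function.update_self]
        have := le_wt f (T := T) (x := y) (by rw [hi]; exact hm y (List.mem_cons_of_mem _ hy))
        omega
      · refine List.Pairwise.imp_of_mem (fun {a c} ha hc hac => ?_) h3
        have hax : a ≠ x := fun h => hn.1 (h ▸ ha)
        have hcx : c ≠ x := fun h => hn.1 (h ▸ hc)
        simpa only [Function.update_of_ne hax, Function.update_of_ne hcx] using hac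

lemma pairwise_ordD {g : ℕ → ℕ} {K : ℕ} (k : ℕ) : ∀ lo : ℕ,
    (ordD k lo).Pairwise (fun a c => g c + K ≤ g a) →
    g (lo + k) + K ≤ g (lo + k + 1) ∧ g (lo + k + 2) + K ≤ g (lo + k) := by
  induction k with
  | zero =>
    intro lo h
    simp only [ordD, List.pairwise_cons, List.mem_cons, List.not_mem_nil, or_false,
      forall_eq_or_imp, forall_eq] at h
    exact ⟨h.1.1, h.2.1⟩
  | succ k ih =>
    intro lo h
    simp only [ordD, List.pairwise_cons] at h
    have h' := ih (lo + 1) h.2
    rw [show lo + 1 + k = lo + (k + 1) by ring] at h'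
    exact h'

/-- From every initial tree the deep tree can be forced, with large gaps between the relevant
counters. -/
theorem force_deep (K k : ℕ) {T₀ : BST} (hT₀ : On (k + 3) T₀) :
    ∃ π : List ℕ, (∀ x ∈ π, 1 ≤ x ∧ x ≤ k + 3) ∧ (run (fun _ => 0) T₀ π).2 = deep k 1 ∧
      (run (fun _ => 0) T₀ π).1 (1 + k) + K ≤ (run (fun _ => 0) T₀ π).1 (1 + k + 1) ∧
      (run (fun _ => 0) T₀ π).1 (1 + k + 2) + K ≤ (run (fun _ => 0) T₀ π).1 (1 + k) := by
  obtain ⟨π, h1, h2, h3⟩ := forceK K hT₀.srt (ordD k 1) (nodup_ordD k 1) (by
    intro x hx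
    rw [mem_ordD] at hx
    rw [hT₀, List.mem_range'_1]
    omega)
  refine ⟨π, fun x hx => ?_, ?_, pairwise_ordD k 1 h3⟩
  · have := (mem_ordD k 1 x).1 (h1 x hx)
    omega
  · have hi : (run (fun _ => 0) T₀ π).2.inorder = T₀.inorder := inorder_run _ _ _
    have h4 := restrict_foldrD T₀ k 0
    rw [show 0 + 1 + (k + 3) = k + 3 + 1 by ring, show 0 + 1 = 1 by rfl, ← h2, gtT_self,
      ltT_self] at h4
    · exact h4
    · intro x hx
      rw [hi, hT₀, List.mem_range'_1] at hx
      omega
    · intro x hx
      rw [hi, hT₀, List.mem_range'_1] at hx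
      omega

/-- The cost of the WPL tree algorithm. -/
theorem cost_ge (K k : ℕ) {T₀ : BST} (hT₀ : On (k + 3) T₀) :
    ∃ π : List ℕ, (∀ x ∈ π, 1 ≤ x ∧ x ≤ k + 3) ∧
      ∀ m : ℕ, m * (2 * K * (k + 2)) ≤ wplCost T₀ (π ++ blocks k K m) := by
  obtain ⟨π, h1, h2, h3, h4⟩ := force_deep K k hT₀
  refine ⟨π, h1, fun m => ?_⟩
  unfold wplCost
  rw [wplCostFrom_append, h2, cost_blocks k K m _ (by omega) (by omega) (by omega)]
  exact Nat.le_add_left _ _

/-! ### Trees for the optimal costs -/

/-- The search tree with the left child of the deep pair at the root and the right one at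
depth `1`. -/
def good (k : ℕ) : BST := node (bal k 1 k) (1 + k) (node (node leaf (1 + k + 1) leaf) (1 + k + 2) leaf)

/-- The tree `good` after one rotation. -/
def good' (k : ℕ) : BST := node (node (bal k 1 k) (1 + k) (node leaf (1 + k + 1) leaf)) (1 + k + 2) leaf

lemma on_good (k : ℕ) : On (k + 3) (good k) := by
  have h := inorder_bal k 1 k Nat.lt_two_pow_self
  unfold On
  simp only [good, inorder, h]
  rw [show k + 3 = k + (2 + 1) by ring, ← List.range'_append_1, List.range'_succ]
  simp [List.range', add_assoc]

lemma depth_good_left (k : ℕ) : depth (1 + k) (good k) = 0 := by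
  simp [good, depth]

lemma depth_good_right (k : ℕ) : depth (1 + k + 2) (good k) = 1 := by
  have h1 : ¬ 1 + k + 2 < 1 + k := by omega
  have h2 : 1 + k < 1 + k + 2 := by omega
  simp only [good, depth, h1, h2, if_true, if_false, lt_irrefl]

lemma depth_good'_right (k : ℕ) : depth (1 + k + 2) (good' k) = 0 := by
  simp [good', depth]

lemma rot_good (k : ℕ) : Rot (good k) (good' k) := Rot.left _ _ _ _ _

lemma staticCost_append (S : BST) (σ τ : List ℕ) :
    staticCost S (σ ++ τ) = staticCost S σ + staticCost S τ := by
  simp [staticCost]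

lemma staticCost_blocks (k K m : ℕ) : staticCost (good k) (blocks k K m) = m * (3 * K) := by
  induction m with
  | zero => simp [blocks, staticCost]
  | succ m ih =>
    simp only [blocks]
    rw [staticCost_append, staticCost_append, ih]
    simp only [staticCost, List.map_replicate, List.sum_replicate, depth_good_left,
      depth_good_right, smul_eq_mul]
    ring

/-- Serving a block of accesses to a root. -/
lemma serves_replicate {T : BST} {x c : ℕ} {τ : List ℕ} (h0 : depth x T = 0)
    (h : Serves T τ c) : ∀ j : ℕ, Serves T (List.replicate j x ++ τ) (c + j) := by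
  intro j
  induction j with
  | zero => exact h
  | succ j ih =>
    rw [List.replicate_succ, List.cons_append, ← Nat.add_assoc]
    have := Serves.access (x := x) ih
    rwa [h0, Nat.add_zero] at this

lemma serves_blocks (k K m : ℕ) : Serves (good k) (blocks k K m) (m * (2 * K + 2)) := by
  induction m with
  | zero => simpa [blocks] using Serves.done (good k)
  | succ m ih =>
    have h1 := serves_replicate (depth_good_left k) ih K
    have h2 := Serves.rotate (rot_good k).symm h1
    have h3 := serves_replicate (depth_good'_right k) h2 K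
    have h4 := Serves.rotate (rot_good k) h3
    have e : m * (2 * K + 2) + K + 1 + K + 1 = (m + 1) * (2 * K + 2) := by ring
    rw [e] at h4
    exact h4

lemma serves_append {S : BST} {τ : List ℕ} {c : ℕ} (h : Serves S τ c) (σ : List ℕ) :
    Serves S (σ ++ τ) (c + staticCost S σ) := by
  induction σ with
  | nil => simpa [staticCost] using h
  | cons x σ ih =>
    have : staticCost S (x :: σ) = staticCost S σ + (1 + depth x S) := by
      simp only [staticCost, List.map_cons, List.sum_cons]
      ring
    rw [this, ← Nat.add_assoc]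
    exact Serves.access ih

lemma opt_blocks_le (k : ℕ) {T₀ : BST} (hT₀ : On (k + 3) T₀) (π : List ℕ) : ∃ R : ℕ,
    ∀ K m : ℕ, opt T₀ (π ++ blocks k K m) ≤ m * (2 * K + 2) + R := by
  have h1 : Relation.ReflTransGen Rot T₀ (good k) := reach (by rw [hT₀, on_good k])
  have h2 : ∃ R : ℕ, ∀ (σ : List ℕ) (c : ℕ), Serves (good k) σ c → Serves T₀ σ (c + R) := by
    clear hT₀
    induction h1 using Relation.ReflTransGen.head_induction_on with
    | refl => exact ⟨0, fun σ c h => h⟩
    | head h _ ih =>
      obtain ⟨R, hR⟩ := ih
      exact ⟨R + 1, fun σ c hs => Serves.rotate h (hR σ c hs)⟩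
  obtain ⟨R, hR⟩ := h2
  refine ⟨staticCost (good k) π + R, fun K m => ?_⟩
  have h3 := hR _ _ (serves_append (serves_blocks k K m) π)
  have h4 : opt T₀ (π ++ blocks k K m) ≤ m * (2 * K + 2) + staticCost (good k) π + R :=
    Nat.sInf_le h3
  omega

/-! ### The trivial upper bounds -/

lemma climb_le (f : ℕ → ℕ) (x : ℕ) : ∀ (m : ℕ) (T : BST), (climb f x m T).2 ≤ m := by
  intro m
  induction m with
  | zero => intro T; rfl
  | succ m ih =>
    intro T
    simp only [climb]
    split_ifs
    · exact Nat.succ_le_succ (ih _)
    · exact Nat.zero_le _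

lemma depth_lt_length {x : ℕ} {T : BST} (hT : Srt T) (hx : x ∈ T.inorder) :
    depth x T < T.inorder.length := by
  induction T with
  | leaf => simp [inorder] at hx
  | node l k r ihl ihr =>
    obtain ⟨hl, hr, h1, h2⟩ := srt_node.1 hT
    simp only [depth, inorder, List.length_append, List.length_cons]
    split_ifs with h3 h4
    · have := ihl hl (mem_of_lt hT hx h3)
      omega
    · have := ihr hr (mem_of_gt hT hx h4)
      omega
    · omega

lemma wplCostFrom_le {n : ℕ} (σ : List ℕ) : ∀ (f : ℕ → ℕ) (T : BST), On n T →
    (∀ x ∈ σ, 1 ≤ x ∧ x ≤ n) → wplCostFrom f T σ ≤ (2 * n - 1) * σ.length := by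
  induction σ with
  | nil => intro f T _ _; simp [wplCostFrom]
  | cons x σ ih =>
    intro f T hT hσ
    have hx := hσ x List.mem_cons_self
    have h1 : depth x T < n := by
      have := depth_lt_length hT.srt (x := x) (by
        rw [hT, List.mem_range'_1]
        omega)
      rwa [hT, List.length_range'] at this
    have h2 := climb_le (Function.update f x (f x + 1)) x (depth x T) T
    have h3 := ih (Function.update f x (f x + 1))
      (climb (Function.update f x (f x + 1)) x (depth x T) T).1
      (by unfold On; rw [inorder_climb]; exact hT) fun y hy => hσ y (List.mem_cons_of_mem _ hy)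
    simp only [wplCostFrom, List.length_cons]
    have h4 : (2 * n - 1) * (σ.length + 1) = (2 * n - 1) * σ.length + (2 * n - 1) := by ring
    omega

lemma length_le_static (S : BST) (σ : List ℕ) : σ.length ≤ staticCost S σ := by
  induction σ with
  | nil => simp
  | cons x σ ih =>
    simp only [staticCost, List.map_cons, List.sum_cons, List.length_cons] at ih ⊢
    omega

lemma length_le_serves {T : BST} {σ : List ℕ} {c : ℕ} (h : Serves T σ c) : σ.length ≤ c := by
  induction h with
  | done T => exact le_rfl
  | rotate _ _ ih => omega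
  | access _ ih => simp only [List.length_cons]; omega

lemma length_le_optStatic {n : ℕ} (σ : List ℕ) : σ.length ≤ optStatic n σ := by
  unfold optStatic
  have hne : {c | ∃ S : BST, On n S ∧ c = staticCost S σ}.Nonempty :=
    ⟨_, balTree n, on_balTree n, rfl⟩
  obtain ⟨S, _, hS⟩ := Nat.sInf_mem hne
  rw [hS]
  exact length_le_static S σ

lemma length_le_opt (T : BST) (σ : List ℕ) : σ.length ≤ opt T σ := by
  unfold opt
  have hne : {c | Serves T σ c}.Nonempty := ⟨_, serves_static T σ⟩
  exact length_le_serves (Nat.sInf_mem hne)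

end Pool.Agent.KS6_40.WP
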